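import Mathlib

set_option autoImplicit false

/-!
# Order preserving actions of surgery groups of the Borromean rings: the core argument

`X` is a complete linear order and `x, y, z` are order automorphisms of `X`.
-/

namespace Pool.Agent.W705.Borr

variable {X : Type*} [CompleteLinearOrder X]

/-- `a` commutes with `x` and is at least as strong as the inverse of `x` at every point. -/
structure Dom (x a : X ≃o X) : Prop where
  comm : ∀ v, x (a v) = a (x v)
  up : ∀ v, v < x v → x (a v) ≤ v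
  down : ∀ v, x v < v → v ≤ x (a v)
  fix : ∀ v, x v = v → a v = v

/-- The relations of the Borromean rings (with the longitudes `a, b, c` of `x, y, z`) together
with the dominance property. -/
structure Sys (x y z a b c : X ≃o X) : Prop where
  dx : Dom x a
  dy : Dom y b
  dz : Dom z c
  /-- `y a = z y z⁻¹` -/
  r1 : ∀ v, y (a (z v)) = z (y v)
  /-- `z b = x z x⁻¹` -/
  r2 : ∀ v, z (b (x v)) = x (z v)
  /-- `x c = y x y⁻¹` -/
  r3 : ∀ v, x (c (y v)) = y (x v)

theorem Sys.rot {x y z a b c : X ≃o X} (h : Sys x y z a b c) : Sys y z x b c a :=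
  ⟨h.dy, h.dz, h.dx, h.r2, h.r3, h.r1⟩

theorem Dom.dual {x a : X ≃o X} (h : Dom x a) :
    Dom (X := Xᵒᵈ) x.dual a.dual := by
  refine ⟨?_, ?_, ?_, ?_⟩
  · intro v; exact h.comm v
  · intro v hv; exact h.down v hv
  · intro v hv; exact h.up v hv
  · intro v hv; exact h.fix v hv

theorem Sys.dual {x y z a b c : X ≃o X} (h : Sys x y z a b c) :
    Sys (X := Xᵒᵈ) x.dual y.dual z.dual a.dual b.dual c.dual :=
  ⟨h.dx.dual, h.dy.dual, h.dz.dual, h.r1, h.r2, h.r3⟩

/-- Intermediate value theorem for order automorphisms. -/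
theorem ivt (g : X ≃o X) {w s : X} (hws : w ≤ s) (hw : g w ≤ w) (hs : s < g s) :
    ∃ t, w ≤ t ∧ t < s ∧ g t = t := by
  set A : Set X := {v | v ≤ s ∧ g v ≤ v} with hA
  have hmem : w ∈ A := ⟨hws, hw⟩
  set t := sSup A with ht
  have hts : t ≤ s := sSup_le fun v hv => hv.1
  have hgt : g t ≤ t := by
    rw [ht, g.map_sSup]
    refine iSup₂_le fun v hv => le_trans hv.2 (le_sSup hv)
  have hne : t ≠ s := by
    rintro h
    rw [h] at hgt
    exact absurd hgt (not_le.mpr hs)
  have hlt : t < s := lt_of_le_of_ne hts hne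
  refine ⟨t, le_sSup hmem, hlt, le_antisymm hgt ?_⟩
  by_contra hcon
  rw [not_le] at hcon
  -- `g.symm t > t`
  have h1 : t < g.symm t := by
    rw [← g.lt_iff_lt]; simpa using hcon
  rcases le_or_gt (g.symm t) s with h2 | h2
  · have : g.symm t ∈ A := ⟨h2, by simpa using h1.le⟩
    exact absurd (le_sSup this) (not_le.mpr h1)
  · have := (g.lt_iff_lt).mpr h2
    rw [g.apply_symm_apply] at this
    exact absurd (hs.trans this) (not_lt.mpr hts)

/-- Intermediate value theorem, the other side. -/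
theorem ivt' (g : X ≃o X) {v s : X} (hsv : s ≤ v) (hv : g v ≤ v) (hs : s < g s) :
    ∃ t, s < t ∧ t ≤ v ∧ g t = t := by
  have h1 : v ≤ g.symm v := by rw [← g.le_iff_le]; simpa using hv
  have h2 : g.symm s < s := by rw [← g.lt_iff_lt]; simpa using hs
  obtain ⟨t, t1, t2, t3⟩ := ivt (X := Xᵒᵈ) g.symm.dual (w := v) (s := s) hsv h1 h2
  refine ⟨OrderDual.ofDual t, t2, t1, ?_⟩
  have t3' : g.symm (OrderDual.ofDual t) = OrderDual.ofDual t := t3
  have t4 := congrArg g t3'
  rw [g.apply_symm_apply] at t4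
  exact t4.symm

theorem Dom.inv_le {x a : X ≃o X} (h : Dom x a) {v : X} (hv : v < x v) : x v ≤ a.symm v := by
  have h1 := h.up v hv
  rw [h.comm] at h1
  rw [← a.le_iff_le]; simpa using h1

theorem Dom.le_inv {x a : X ≃o X} (h : Dom x a) {v : X} (hv : x v < v) : a.symm v ≤ x v := by
  have h1 := h.down v hv
  rw [h.comm] at h1
  rw [← a.le_iff_le]; simpa using h1

section
variable {x y z a b c : X ≃o X}

/-- Case A: a fixed point of `x` is not moved up by both `y` and `z`. -/
theorem caseA (h : Sys x y z a b c) {s : X} (hx : x s = s) (hy : s < y s) (hz : s < z s) :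
    False := by
  -- x z s = z b s
  have e1 : z (b s) = x (z s) := by have := h.r2 s; rwa [hx] at this
  have h1 : s < x (z s) := by
    have := (x.lt_iff_lt).mpr hz; rwa [hx] at this
  have h2 : s < z (b s) := by rw [e1]; exact h1
  have h3 : y (b s) ≤ s := h.dy.up s hy
  -- y (z⁻¹ s) < s
  have h4 : z.symm s < b s := by rw [← z.lt_iff_lt]; simpa using h2
  have h5 : y (z.symm s) < s := lt_of_lt_of_le ((y.lt_iff_lt).mpr h4) h3
  -- z y z⁻¹ s = y s
  have e2 : z (y (z.symm s)) = y s := by
    have := h.r1 (z.symm s)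
    rw [z.apply_symm_apply, h.dx.fix s hx] at this
    exact this.symm
  have h6 : y s < z s := by
    rw [← e2]; exact (z.lt_iff_lt).mpr h5
  have h7 : y s < z (y s) := lt_trans h6 ((z.lt_iff_lt).mpr hy)
  have h8 : z (c (y s)) ≤ y s := h.dz.up (y s) h7
  -- x c y s = y x s = y s, so c y s = x⁻¹ y s > s
  have e3 : x (c (y s)) = y s := by have := h.r3 s; rwa [hx] at this
  have h9 : s < c (y s) := by
    rw [← x.lt_iff_lt, hx, e3]; exact hy
  have h10 : z s < z (c (y s)) := (z.lt_iff_lt).mpr h9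
  exact absurd (lt_of_lt_of_le h10 h8) (not_lt.mpr h6.le)

theorem caseA' (h : Sys x y z a b c) {s : X} (hx : x s = s) (hy : y s < s) (hz : z s < s) :
    False :=
  caseA (X := Xᵒᵈ) h.dual (s := s) hx hy hz

/-- If `x` and `y` fix a point then `z` does. -/
theorem fix3 (h : Sys x y z a b c) {s : X} (hx : x s = s) (hy : y s = s) : z s = s := by
  have e3 : x (c s) = s := by have := h.r3 s; rw [hx, hy] at this; exact this
  have e4 : c s = s := by
    have : x (c s) = x s := by rw [e3, hx]
    exact x.injective this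
  rcases lt_trichotomy (z s) s with h1 | h1 | h1
  · have := h.dz.down s h1
    rw [e4] at this
    exact absurd h1 (not_lt.mpr this)
  · exact h1
  · have := h.dz.up s h1
    rw [e4] at this
    exact absurd h1 (not_lt.mpr this)

/-- Case B. -/
theorem caseB (h : Sys x y z a b c) {s : X} (hx : x s = s) (hy : s < y s) (hz : z s < s) :
    False := by
  set w := z s with hw
  have e1 : z (b s) = x w := by have := h.r2 s; rwa [hx] at this
  have hby : b s ≤ y.symm s := by
    rw [← y.le_iff_le]; simpa using h.dy.up s hy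
  have hys : y.symm s < s := by rw [← y.lt_iff_lt]; simpa using hy
  -- x w < w
  have hxw : x w < w := by
    rw [← e1, hw]; exact (z.lt_iff_lt).mpr (lt_of_le_of_lt hby hys)
  -- y w ≤ w
  have hyw : y w ≤ w := by
    have h1 : a.symm w ≤ x w := h.dx.le_inv hxw
    have h2 : x w ≤ z (y.symm s) := by rw [← e1]; exact (z.le_iff_le).mpr hby
    have h3 : w ≤ a (z (y.symm s)) := by
      rw [← a.symm.le_iff_le]; simpa using h1.trans h2
    -- y a z y⁻¹ s = z y y⁻¹ s = z s = w
    have h4 : y (a (z (y.symm s))) = w := by rw [h.r1]; simp [hw]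
    rw [← h4]
    exact le_trans (le_of_eq rfl) ((y.le_iff_le).mpr (by rw [h4]; exact h3))
  -- smallest fixed point of `x` in `[w, s]`
  set A : Set X := {v | w ≤ v ∧ x v = v} with hA
  set a0 := sInf A with ha0
  have hsA : s ∈ A := ⟨hz.le, hx⟩
  have ha0s : a0 ≤ s := sInf_le hsA
  have hwa0 : w ≤ a0 := le_sInf fun v hv => hv.1
  have hxa0 : x a0 = a0 := by
    apply le_antisymm
    · refine le_sInf fun v hv => ?_
      rw [← hv.2]; exact (x.le_iff_le).mpr (sInf_le hv)
    · rw [ha0, x.map_sInf]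
      refine le_iInf₂ fun v hv => ?_
      rw [hv.2]; exact sInf_le hv
  have hne : w ≠ a0 := by
    intro e; rw [← e] at hxa0; exact absurd hxa0 (ne_of_lt hxw)
  have hwa : w < a0 := lt_of_le_of_ne hwa0 hne
  have hza0 : z a0 < a0 := lt_of_le_of_lt ((z.le_iff_le).mpr ha0s) hwa
  have hya0 : a0 < y a0 := by
    rcases lt_trichotomy (y a0) a0 with h1 | h1 | h1
    · exact (caseA' h hxa0 h1 hza0).elim
    · exact absurd (fix3 h hxa0 h1) (ne_of_lt hza0)
    · exact h1
  obtain ⟨b0, hb1, hb2, hb3⟩ := ivt y hwa.le hyw hya0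
  have hzb0 : z b0 < b0 := by
    have : z b0 < z s := (z.lt_iff_lt).mpr (lt_of_lt_of_le hb2 ha0s)
    exact lt_of_lt_of_le this hb1
  have hxb0 : b0 < x b0 := by
    rcases lt_trichotomy (x b0) b0 with h1 | h1 | h1
    · exact (caseA' h.rot hb3 hzb0 h1).elim
    · exact absurd (fix3 h h1 hb3) (ne_of_lt hzb0)
    · exact h1
  obtain ⟨c0, hc1, hc2, hc3⟩ := ivt x hb1 hxw.le hxb0
  have : a0 ≤ c0 := sInf_le ⟨hc1, hc3⟩
  exact absurd (lt_of_lt_of_le (hc2.trans hb2) this) (lt_irrefl _)

theorem caseB' (h : Sys x y z a b c) {s : X} (hx : x s = s) (hy : y s < s) (hz : s < z s) :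
    False :=
  caseB (X := Xᵒᵈ) h.dual (s := s) hx hy hz

/-- A fixed point of `x` is a fixed point of `y` and `z`. -/
theorem fix1 (h : Sys x y z a b c) {s : X} (hx : x s = s) : y s = s ∧ z s = s := by
  rcases lt_trichotomy (y s) s with h1 | h1 | h1
  · rcases lt_trichotomy (z s) s with h2 | h2 | h2
    · exact (caseA' h hx h1 h2).elim
    · have := fix3 h.rot.rot h2 hx; exact absurd this (ne_of_lt h1)
    · exact (caseB' h hx h1 h2).elim
  · exact ⟨h1, fix3 h hx h1⟩
  · rcases lt_trichotomy (z s) s with h2 | h2 | h2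
    · exact (caseB h hx h1 h2).elim
    · have := fix3 h.rot.rot h2 hx; exact absurd this (ne_of_gt h1)
    · exact (caseA h hx h1 h2).elim

/-- `x` and `y` do not both move a point up. -/
theorem same (h : Sys x y z a b c) {s : X} (hx : s < x s) (hy : s < y s) : False := by
  -- component of the complement of the set of fixed points
  set A : Set X := {f | f ≤ s ∧ x f = f} with hA
  set B : Set X := {f | s ≤ f ∧ x f = f} with hB
  set α := sSup A with hα
  set β := sInf B with hβ
  have xα : x α = α := by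
    apply le_antisymm
    · rw [hα, x.map_sSup]
      refine iSup₂_le fun v hv => ?_
      rw [hv.2]; exact le_sSup hv
    · refine sSup_le fun v hv => ?_
      rw [← hv.2]; exact (x.le_iff_le).mpr (le_sSup hv)
  have xβ : x β = β := by
    apply le_antisymm
    · refine le_sInf fun v hv => ?_
      rw [← hv.2]; exact (x.le_iff_le).mpr (sInf_le hv)
    · rw [hβ, x.map_sInf]
      refine le_iInf₂ fun v hv => ?_
      rw [hv.2]; exact sInf_le hv
  have hsx : x s ≠ s := ne_of_gt hx
  have hαs : α < s := by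
    refine lt_of_le_of_ne (sSup_le fun v hv => hv.1) ?_
    intro e; rw [e] at xα; exact hsx xα
  have hsβ : s < β := by
    refine lt_of_le_of_ne (le_sInf fun v hv => hv.1) ?_
    intro e; rw [← e] at xβ; exact hsx xβ
  let J : Set X := {v | α < v ∧ v < β}
  have hJs : s ∈ J := ⟨hαs, hsβ⟩
  have hJx : ∀ v ∈ J, x v ≠ v := by
    rintro v ⟨h1, h2⟩ e
    rcases le_total v s with h3 | h3
    · exact absurd (le_sSup (show v ∈ A from ⟨h3, e⟩)) (not_le.mpr h1)
    · exact absurd (sInf_le (show v ∈ B from ⟨h3, e⟩)) (not_le.mpr h2)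
  have hJy : ∀ v ∈ J, y v ≠ v := fun v hv e => hJx v hv (fix1 h.rot e).2
  have yzα := fix1 h xα
  have yzβ := fix1 h xβ
  have aα := h.dx.fix α xα
  have aβ := h.dx.fix β xβ
  have stab : ∀ g : X ≃o X, g α = α → g β = β → ∀ v ∈ J, g v ∈ J ∧ g.symm v ∈ J := by
    intro g h1 h2 v hv
    refine ⟨⟨?_, ?_⟩, ⟨?_, ?_⟩⟩
    · rw [← h1]; exact (g.lt_iff_lt).mpr hv.1
    · rw [← h2]; exact (g.lt_iff_lt).mpr hv.2
    · rw [← g.lt_iff_lt, h1]; simpa using hv.1
    · rw [← g.lt_iff_lt, h2]; simpa using hv.2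
  have pos : ∀ g : X ≃o X, (∀ v ∈ J, g v ≠ v) → s < g s → ∀ v ∈ J, v < g v := by
    intro g hg hgs v hv
    by_contra hcon
    rw [not_lt] at hcon
    rcases le_total v s with h3 | h3
    · obtain ⟨t, t1, t2, t3⟩ := ivt g h3 hcon hgs
      exact hg t ⟨lt_of_lt_of_le hv.1 t1, t2.trans hsβ⟩ t3
    · obtain ⟨t, t1, t2, t3⟩ := ivt' g h3 hcon hgs
      exact hg t ⟨hαs.trans t1, lt_of_le_of_lt t2 hv.2⟩ t3
  have px := pos x hJx hx
  have py := pos y hJy hy
  -- first inequality: `x s < y s`
  have m1 : a.symm s ∈ J := (stab a aα aβ s hJs).2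
  have m2 : z.symm (a.symm s) ∈ J := (stab z yzα.2 yzβ.2 _ m1).2
  have i1 : x s < y s := by
    have e := h.r1 (z.symm (a.symm s))
    rw [z.apply_symm_apply, a.apply_symm_apply] at e
    have e1 : a.symm s < y s := by
      rw [e]
      have := (z.lt_iff_lt).mpr (py _ m2)
      rwa [z.apply_symm_apply] at this
    have e2 : x s ≤ a.symm s := by
      have := h.dx.up _ (px _ m1)
      rwa [a.apply_symm_apply] at this
    exact lt_of_le_of_lt e2 e1
  -- second inequality: `y s < x s`
  have m3 : x s ∈ J := (stab x xα xβ s hJs).1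
  have m4 : z s ∈ J := (stab z yzα.2 yzβ.2 s hJs).1
  have i2 : y s < x s := by
    have e := h.r2 s
    have e1 : s < b (x s) := by
      rw [← z.lt_iff_lt, e]; exact px _ m4
    have e2 : y (b (x s)) ≤ x s := h.dy.up _ (py _ m3)
    exact lt_of_lt_of_le ((y.lt_iff_lt).mpr e1) e2
  exact absurd (i1.trans i2) (lt_irrefl _)

theorem same' (h : Sys x y z a b c) {s : X} (hx : x s < s) (hy : y s < s) : False :=
  same (X := Xᵒᵈ) h.dual (s := s) hx hy

/-- The main theorem on actions: the action is trivial. -/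
theorem trivial (h : Sys x y z a b c) (s : X) : x s = s := by
  by_contra hx
  have hy : y s ≠ s := fun e => hx (fix1 h.rot e).2
  have hz : z s ≠ s := fun e => hx (fix1 h.rot.rot e).1
  rcases lt_or_gt_of_ne hx with h1 | h1 <;> rcases lt_or_gt_of_ne hy with h2 | h2 <;>
    rcases lt_or_gt_of_ne hz with h3 | h3
  · exact same' h h1 h2
  · exact same' h h1 h2
  · exact same' h.rot.rot h3 h1
  · exact same h.rot h2 h3
  · exact same' h.rot h2 h3
  · exact same h.rot.rot h3 h1
  · exact same h h1 h2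
  · exact same h h1 h2

end

end Pool.Agent.W705.Borr
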