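import Pool.Agent.W705.Borr

set_option autoImplicit false

/-!
# Left-ordered groups and the relations of the Borromean rings
-/

namespace Pool.Agent.W705.Borr

section iter
variable {X : Type*} [CompleteLinearOrder X]

theorem iter_lt {g : X ≃o X} {v : X} (h : v < g v) : ∀ n : ℕ, 1 ≤ n → v < g^[n] v := by
  intro n hn
  induction n, hn using Nat.le_induction with
  | base => simpa using h
  | succ n _ ih =>
    rw [Function.iterate_succ_apply']
    exact h.trans ((g.lt_iff_lt).mpr ih)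

theorem iter_le {g : X ≃o X} {v : X} (h : v < g v) (n : ℕ) : v ≤ g^[n] v := by
  rcases Nat.eq_zero_or_pos n with rfl | hn
  · simp
  · exact (iter_lt h n hn).le

theorem iter_mono (g : X ≃o X) (n : ℕ) {u v : X} (h : u < v) : g^[n] u < g^[n] v := by
  induction n with
  | zero => simpa using h
  | succ n ih =>
    rw [Function.iterate_succ_apply', Function.iterate_succ_apply']
    exact (g.lt_iff_lt).mpr ih

theorem iter_comm {x a : X ≃o X} (hc : ∀ v, x (a v) = a (x v)) (n : ℕ) (v : X) :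
    (x.trans a)^[n] v = x^[n] (a^[n] v) := by
  have h1 : ⇑(x.trans a) = ⇑x ∘ ⇑a := by
    funext w; simp [hc]
  have h2 : Function.Commute ⇑x ⇑a := fun w => hc w
  rw [h1, h2.comp_iterate]
  rfl

theorem up_aux {x a : X ≃o X} (hc : ∀ v, x (a v) = a (x v)) {p q : ℕ} (hq : 1 ≤ q)
    (hpq : q ≤ p) (hr : ∀ v, x^[p] (a^[q] v) = v) {v : X} (hv : v < x v) : x (a v) ≤ v := by
  by_contra hcon
  rw [not_le] at hcon
  have h1 : v < (x.trans a) v := by rw [OrderIso.trans_apply, ← hc]; exact hcon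
  have h2 := iter_lt h1 q hq
  rw [iter_comm hc] at h2
  obtain ⟨k, rfl⟩ := Nat.exists_eq_add_of_le' hpq
  have h3 := hr v
  rw [Function.iterate_add_apply] at h3
  have h4 := iter_mono x k h2
  rw [h3] at h4
  exact absurd (lt_of_le_of_lt (iter_le hv k) h4) (lt_irrefl _)

theorem dom_of_rel {x a : X ≃o X} (hc : ∀ v, x (a v) = a (x v)) {p q : ℕ} (hq : 1 ≤ q)
    (hpq : q ≤ p) (hr : ∀ v, x^[p] (a^[q] v) = v) : Dom x a := by
  refine ⟨hc, fun v hv => up_aux hc hq hpq hr hv, ?_, ?_⟩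
  · intro v hv
    exact up_aux (X := Xᵒᵈ) (x := x.dual) (a := a.dual) (fun w => hc w) hq hpq
      (fun w => hr w) hv
  · intro v hv
    have h1 : x^[p] v = v := Function.iterate_fixed hv p
    have h2 : Function.Commute ⇑x ⇑a := fun w => hc w
    have h3 : a^[q] v = v := by
      have h4 := hr v
      have h5 : x^[p] (a^[q] v) = a^[q] (x^[p] v) := (h2.iterate_iterate p q) v
      rw [h5, h1] at h4
      exact h4
    rcases lt_trichotomy (a v) v with h4 | h4 | h4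
    · have := iter_lt (X := Xᵒᵈ) (g := a.dual) (v := v) h4 q hq
      have h5 : a^[q] v < v := this
      rw [h3] at h5; exact absurd h5 (lt_irrefl _)
    · exact h4
    · have h5 := iter_lt h4 q hq
      rw [h3] at h5; exact absurd h5 (lt_irrefl _)

end iter

section act
variable {H : Type*} [Group H]

/-- `a b c` are three meridians and their longitudes are the commutators below. -/
structure Rel (x y z : H) (p q : Fin 3 → ℤ) : Prop where
  cx : x * (y⁻¹ * z * y * z⁻¹) = (y⁻¹ * z * y * z⁻¹) * x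
  cy : y * (z⁻¹ * x * z * x⁻¹) = (z⁻¹ * x * z * x⁻¹) * y
  cz : z * (x⁻¹ * y * x * y⁻¹) = (x⁻¹ * y * x * y⁻¹) * z
  sx : x ^ p 0 * (y⁻¹ * z * y * z⁻¹) ^ q 0 = 1
  sy : y ^ p 1 * (z⁻¹ * x * z * x⁻¹) ^ q 1 = 1
  sz : z ^ p 2 * (x⁻¹ * y * x * y⁻¹) ^ q 2 = 1

variable [LinearOrder H]

/-- Left multiplication on the lower sets of a left-ordered group. -/
noncomputable def act (hinv : ∀ a b c : H, a ≤ b ↔ c * a ≤ c * b) (g : H) :
    LowerSet H ≃o LowerSet H :=
  LowerSet.map ⟨Equiv.mulLeft g, by intro a b; exact (hinv a b g).symm⟩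

variable (hinv : ∀ a b c : H, a ≤ b ↔ c * a ≤ c * b)

theorem mem_act (g : H) (v : LowerSet H) (b : H) : b ∈ act hinv g v ↔ g⁻¹ * b ∈ v := by
  unfold act
  rw [LowerSet.mem_map]
  exact Iff.rfl

theorem act_mul (g h : H) (v : LowerSet H) : act hinv (g * h) v = act hinv g (act hinv h v) := by
  ext b
  rw [SetLike.mem_coe, SetLike.mem_coe, mem_act, mem_act, mem_act, mul_inv_rev, mul_assoc]

theorem act_one (v : LowerSet H) : act hinv 1 v = v := by
  ext b
  rw [SetLike.mem_coe, SetLike.mem_coe, mem_act, inv_one, one_mul]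

theorem act_pow (g : H) (n : ℕ) (v : LowerSet H) : act hinv (g ^ n) v = (act hinv g)^[n] v := by
  induction n with
  | zero => simp [act_one]
  | succ n ih => rw [pow_succ', act_mul, ih, Function.iterate_succ_apply']

theorem eq_one_of_act (g : H) (h : ∀ v, act hinv g v = v) : g = 1 := by
  have h1 := h (LowerSet.Iic 1)
  have h2 : g ∈ act hinv g (LowerSet.Iic 1) := by
    rw [mem_act, LowerSet.mem_Iic_iff]
    simp
  have h3 : (1 : H) ∈ act hinv g (LowerSet.Iic 1) := by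
    rw [h1]; exact le_refl (1 : H)
  rw [h1] at h2
  have h4 : g ≤ 1 := h2
  have h5 : g⁻¹ * 1 ≤ 1 := by
    rw [mem_act, LowerSet.mem_Iic_iff] at h3
    exact h3
  have h6 : 1 ≤ g := by
    rw [hinv _ _ g⁻¹]; simpa using h5
  exact le_antisymm h4 h6

theorem dom_act {x l : H} (hc : x * l = l * x) {p q : ℤ} (hq : 1 ≤ q) (hpq : q ≤ p)
    (hr : x ^ p * l ^ q = 1) : Dom (act hinv x) (act hinv l) := by
  obtain ⟨p, rfl⟩ := Int.eq_ofNat_of_zero_le (show 0 ≤ p by omega)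
  obtain ⟨q, rfl⟩ := Int.eq_ofNat_of_zero_le (show 0 ≤ q by omega)
  refine dom_of_rel (p := p) (q := q) ?_ (by omega) (by omega) ?_
  · intro v; rw [← act_mul, hc, act_mul]
  · intro v
    rw [← act_pow, ← act_pow, ← act_mul]
    rw [zpow_natCast, zpow_natCast] at hr
    rw [hr, act_one]

include hinv in
/-- In a left-ordered group the relations with all slopes at least `1` force triviality. -/
theorem rel_trivial {x y z : H} {p q : Fin 3 → ℤ} (hq : ∀ i, 1 ≤ q i) (hpq : ∀ i, q i ≤ p i)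
    (h : Rel x y z p q) : x = 1 ∧ y = 1 ∧ z = 1 := by
  have hs : Sys (act hinv x) (act hinv y) (act hinv z) (act hinv (y⁻¹ * z * y * z⁻¹))
      (act hinv (z⁻¹ * x * z * x⁻¹)) (act hinv (x⁻¹ * y * x * y⁻¹)) := by
    refine ⟨dom_act hinv h.cx (hq 0) (hpq 0) h.sx, dom_act hinv h.cy (hq 1) (hpq 1) h.sy,
      dom_act hinv h.cz (hq 2) (hpq 2) h.sz, ?_, ?_, ?_⟩
    · intro v
      rw [← act_mul, ← act_mul, ← act_mul]
      congr 2; group
    · intro v
      rw [← act_mul, ← act_mul, ← act_mul]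
      congr 2; group
    · intro v
      rw [← act_mul, ← act_mul, ← act_mul]
      congr 2; group
  exact ⟨eq_one_of_act hinv x (trivial hs), eq_one_of_act hinv y (trivial hs.rot),
    eq_one_of_act hinv z (trivial hs.rot.rot)⟩

end act

section mirror
variable {H : Type*} [Group H]

/-- The symmetry of the Borromean rings that reverses the orientation of space. -/
theorem Rel.mirror {x y z : H} {p q : Fin 3 → ℤ} (h : Rel x y z p q) :
    Rel x⁻¹ (x⁻¹ * y * x) z (fun i => - p i) q := by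
  have cx : Commute x (y⁻¹ * z * y * z⁻¹) := h.cx
  have cy : Commute y (z⁻¹ * x * z * x⁻¹) := h.cy
  have cz : Commute z (x⁻¹ * y * x * y⁻¹) := h.cz
  -- the new longitude of `x` is the old one
  have key : (x⁻¹ * y * x)⁻¹ * z * (x⁻¹ * y * x) * z⁻¹ = y⁻¹ * z * y * z⁻¹ := by
    -- `z y z⁻¹ x z = x z x⁻¹ y x`
    have e1 : z * y * z⁻¹ * x * z = x * z * x⁻¹ * y * x := by
      calc z * y * z⁻¹ * x * z = z * (y * (z⁻¹ * x * z * x⁻¹)) * x := by group
        _ = z * ((z⁻¹ * x * z * x⁻¹) * y) * x := by rw [cy.eq]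
        _ = x * z * x⁻¹ * y * x := by group
    have e2 : x⁻¹ * (y⁻¹ * z * y * z⁻¹) * x = y⁻¹ * z * y * z⁻¹ := by
      rw [mul_assoc, ← cx.eq]; group
    calc (x⁻¹ * y * x)⁻¹ * z * (x⁻¹ * y * x) * z⁻¹
        = x⁻¹ * y⁻¹ * (x * z * x⁻¹ * y * x) * z⁻¹ := by group
      _ = x⁻¹ * y⁻¹ * (z * y * z⁻¹ * x * z) * z⁻¹ := by rw [e1]
      _ = x⁻¹ * (y⁻¹ * z * y * z⁻¹) * x := by group
      _ = _ := e2
  have k2 : z⁻¹ * x⁻¹ * z * x⁻¹⁻¹ = x⁻¹ * (z⁻¹ * x * z * x⁻¹)⁻¹ * x := by group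
  have k3 : x⁻¹⁻¹ * (x⁻¹ * y * x) * x⁻¹ * (x⁻¹ * y * x)⁻¹ = (x⁻¹ * y * x * y⁻¹)⁻¹ := by group
  refine ⟨?_, ?_, ?_, ?_, ?_, ?_⟩
  · rw [key]; exact cx.inv_left.eq
  · rw [k2]
    have := cy.inv_right
    calc x⁻¹ * y * x * (x⁻¹ * (z⁻¹ * x * z * x⁻¹)⁻¹ * x)
        = x⁻¹ * (y * (z⁻¹ * x * z * x⁻¹)⁻¹) * x := by group
      _ = x⁻¹ * ((z⁻¹ * x * z * x⁻¹)⁻¹ * y) * x := by rw [this.eq]
      _ = _ := by group
  · rw [k3]; exact cz.inv_right.eq
  · rw [key]
    have := h.sx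
    simpa [inv_zpow'] using this
  · rw [k2]
    have h1 := h.sy
    have h2 : (x⁻¹ * y * x) ^ (- p 1) = x⁻¹ * y ^ (- p 1) * x := by
      have := conj_zpow (i := - p 1) (a := x⁻¹) (b := y)
      simpa using this
    have h3 : (x⁻¹ * (z⁻¹ * x * z * x⁻¹)⁻¹ * x) ^ (q 1)
        = x⁻¹ * ((z⁻¹ * x * z * x⁻¹)⁻¹) ^ (q 1) * x := by
      have := conj_zpow (i := q 1) (a := x⁻¹) (b := (z⁻¹ * x * z * x⁻¹)⁻¹)
      simpa using this
    show (x⁻¹ * y * x) ^ (- p 1) * _ = 1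
    rw [h2, h3, inv_zpow, zpow_neg]
    have h4 : (y ^ p 1)⁻¹ * ((z⁻¹ * x * z * x⁻¹) ^ q 1)⁻¹ = 1 := by
      rw [← mul_inv_rev, ← ((cy.zpow_left (p 1)).zpow_right (q 1)).eq, h1, inv_one]
    calc x⁻¹ * (y ^ p 1)⁻¹ * x * (x⁻¹ * ((z⁻¹ * x * z * x⁻¹) ^ q 1)⁻¹ * x)
        = x⁻¹ * ((y ^ p 1)⁻¹ * ((z⁻¹ * x * z * x⁻¹) ^ q 1)⁻¹) * x := by group
      _ = 1 := by rw [h4]; group
  · rw [k3]
    have h1 := h.sz
    show z ^ (- p 2) * _ = 1
    rw [inv_zpow, zpow_neg, ← mul_inv_rev, ← ((cz.zpow_left (p 2)).zpow_right (q 2)).eq, h1,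
      inv_one]

end mirror

end Pool.Agent.W705.Borr
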