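import Pool.Agent.W705.PT

set_option autoImplicit false

/-!
# Left-ordered groups and the relations of fillings of once-punctured torus bundles
-/

namespace Pool.Agent.W705.PT

open Pool.Agent.W705.Borr (iter_lt iter_le iter_mono iter_comm act act_mul act_one act_pow
  eq_one_of_act)

section betw
variable {X : Type*} [CompleteLinearOrder X]

theorem betw_aux {t δ : X ≃o X} (hc : ∀ v, t (δ v) = δ (t v)) {p q : ℕ} (hp : 1 ≤ p)
    (hqp : q ≤ p) (hr : ∀ v, t^[p] (δ^[q] v) = v) {v : X} (hv : v < δ v) :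
    t v ≤ v ∧ v ≤ δ (t v) := by
  have h1 : t v ≤ v := by
    by_contra hcon
    rw [not_le] at hcon
    have h2 := iter_lt hcon p hp
    have h3 := iter_le hv q
    have h4 : t^[p] v ≤ t^[p] (δ^[q] v) := by
      rcases h3.lt_or_eq with h5 | h5
      · exact (iter_mono t p h5).le
      · rw [← h5]
    rw [hr] at h4
    exact absurd (h2.trans_le h4) (lt_irrefl _)
  refine ⟨h1, ?_⟩
  by_contra hcon
  rw [not_le] at hcon
  rcases Nat.eq_zero_or_pos q with hq | hq
  · subst hq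
    have h2 : ∀ w, t w = w := by
      intro w
      have h3 := hr w
      rw [Function.iterate_zero, id_eq] at h3
      rcases lt_trichotomy (t w) w with h4 | h4 | h4
      · have h5 : t^[p] w < w := iter_lt (X := Xᵒᵈ) (g := t.dual) (v := w) h4 p hp
        rw [h3] at h5; exact absurd h5 (lt_irrefl _)
      · exact h4
      · have h5 := iter_lt h4 p hp
        rw [h3] at h5; exact absurd h5 (lt_irrefl _)
    rw [h2] at hcon
    exact absurd (hcon.trans hv) (lt_irrefl _)
  · have h2 : (t.trans δ)^[q] v < v :=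
      iter_lt (X := Xᵒᵈ) (g := (t.trans δ).dual) (v := v) hcon q hq
    rw [iter_comm hc] at h2
    obtain ⟨k, rfl⟩ := Nat.exists_eq_add_of_le' hqp
    have h3 := hr v
    rw [Function.iterate_add_apply] at h3
    have h4 := iter_mono t k h2
    rw [h3] at h4
    have h5 : t^[k] v ≤ v := by
      rcases h1.lt_or_eq with h6 | h6
      · exact iter_le (X := Xᵒᵈ) (g := t.dual) (v := v) h6 k
      · exact (Function.iterate_fixed h6 k).le
    exact absurd (h4.trans_le h5) (lt_irrefl _)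

theorem betw {t δ : X ≃o X} (hc : ∀ v, t (δ v) = δ (t v)) {p q : ℕ} (hp : 1 ≤ p)
    (hqp : q ≤ p) (hr : ∀ v, t^[p] (δ^[q] v) = v) (v : X) :
    (δ.symm v ≤ t v ∧ t v ≤ v) ∨ (v ≤ t v ∧ t v ≤ δ.symm v) := by
  rcases lt_trichotomy (δ v) v with h1 | h1 | h1
  · right
    have h2 := betw_aux (X := Xᵒᵈ) (t := t.dual) (δ := δ.dual) (fun w => hc w) hp hqp
      (fun w => hr w) (v := v) h1
    have h3 : v ≤ t v := h2.1
    have h4 : δ (t v) ≤ v := h2.2
    refine ⟨h3, ?_⟩
    rw [← δ.le_iff_le]; simpa using h4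
  · left
    have h2 : δ.symm v = v := by rw [OrderIso.symm_apply_eq]; exact h1.symm
    have h3 : t v = v := by
      have h4 := hr v
      rw [Function.iterate_fixed h1] at h4
      rcases lt_trichotomy (t v) v with h6 | h6 | h6
      · have h5 : t^[p] v < v := iter_lt (X := Xᵒᵈ) (g := t.dual) (v := v) h6 p hp
        rw [h4] at h5; exact absurd h5 (lt_irrefl _)
      · exact h6
      · have h5 := iter_lt h6 p hp
        rw [h4] at h5; exact absurd h5 (lt_irrefl _)
    rw [h2, h3]; exact ⟨le_refl v, le_refl v⟩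
  · left
    have h2 := betw_aux hc hp hqp hr h1
    refine ⟨?_, h2.1⟩
    rw [← δ.le_iff_le]; simpa using h2.2

end betw

section grp
variable {H : Type*} [Group H]

/-- The pairs reached from `(x⁻¹, y⁻¹)` by generalised twists: `m ^ a = κ ^ b` with `a ≥ 1`, where
`κ` is the core of the twist and `m` commutes with `κ`. -/
inductive GReach (x y : H) : H → H → Prop
  | base : GReach x y x⁻¹ y⁻¹
  | alpha {ξ η m : H} {a b : ℕ} (hc : m * ξ = ξ * m) (ha : 1 ≤ a) (hm : m ^ a = ξ ^ b) :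
      GReach x y ξ η → GReach x y ξ (η * m)
  | beta {ξ η m : H} {a b : ℕ} (hc : m * η = η * m) (ha : 1 ≤ a) (hm : m ^ a = η ^ b) :
      GReach x y ξ η → GReach x y (ξ * m) η

theorem GReach.comm {x y ξ η : H} (h : GReach x y ξ η) :
    ξ * η * ξ⁻¹ * η⁻¹ = x⁻¹ * y⁻¹ * x * y := by
  induction h with
  | base => group
  | @alpha ξ η m a b hc _ _ _ ih =>
    rw [← ih]
    have h1 : m * ξ⁻¹ = ξ⁻¹ * m := (Commute.inv_right (show Commute m ξ from hc)).eq
    calc ξ * (η * m) * ξ⁻¹ * (η * m)⁻¹ = ξ * η * (m * ξ⁻¹) * m⁻¹ * η⁻¹ := by group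
      _ = ξ * η * ξ⁻¹ * η⁻¹ := by rw [h1]; group
  | @beta ξ η m a b hc _ _ _ ih =>
    rw [← ih]
    calc ξ * m * η * (ξ * m)⁻¹ * η⁻¹ = ξ * (m * η) * m⁻¹ * ξ⁻¹ * η⁻¹ := by group
      _ = ξ * η * ξ⁻¹ * η⁻¹ := by rw [hc]; group

variable [LinearOrder H] (hinv : ∀ a b c : H, a ≤ b ↔ c * a ≤ c * b)

theorem act_inv (g : H) : act hinv g⁻¹ = (act hinv g).symm := by
  refine OrderIso.ext (funext fun v => ?_)
  rw [eq_comm, OrderIso.symm_apply_eq, ← act_mul, mul_inv_cancel, act_one]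

theorem act_mul' (g h : H) : act hinv (g * h) = (act hinv h).trans (act hinv g) := by
  refine OrderIso.ext (funext fun v => ?_)
  rw [act_mul]; rfl

theorem core_le {κ m : H} {a b : ℕ} (ha : 1 ≤ a) (hm : m ^ a = κ ^ b)
    (v : LowerSet H) (hv : act hinv κ v ≤ v) : act hinv m v ≤ v := by
  by_contra hcon
  rw [not_le] at hcon
  have h1 := iter_lt hcon a ha
  rw [← act_pow, hm, act_pow] at h1
  have h2 : (act hinv κ)^[b] v ≤ v := by
    rcases hv.lt_or_eq with h3 | h3
    · exact iter_le (X := (LowerSet H)ᵒᵈ) (g := (act hinv κ).dual) (v := v) h3 b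
    · exact (Function.iterate_fixed h3 b).le
  exact absurd (h1.trans_le h2) (lt_irrefl _)

theorem le_core {κ m : H} {a b : ℕ} (ha : 1 ≤ a) (hm : m ^ a = κ ^ b)
    (v : LowerSet H) (hv : v ≤ act hinv κ v) : v ≤ act hinv m v := by
  by_contra hcon
  rw [not_le] at hcon
  have h1 : (act hinv m)^[a] v < v :=
    iter_lt (X := (LowerSet H)ᵒᵈ) (g := (act hinv m).dual) (v := v) hcon a ha
  rw [← act_pow, hm, act_pow] at h1
  have h2 : v ≤ (act hinv κ)^[b] v := by
    rcases hv.lt_or_eq with h3 | h3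
    · exact iter_le h3 b
    · exact (Function.iterate_fixed h3.symm b).ge
  exact absurd (h1.trans_le h2) (lt_irrefl _)

theorem GReach.act {x y ξ η : H} (h : GReach x y ξ η) :
    Reach (act hinv x) (act hinv y) (act hinv ξ) (act hinv η) := by
  induction h with
  | base => rw [act_inv, act_inv]; exact Reach.base
  | alpha _ ha hm _ ih =>
    rw [act_mul']; exact Reach.alpha (core_le hinv ha hm) (le_core hinv ha hm) ih
  | beta _ ha hm _ ih =>
    rw [act_mul']; exact Reach.beta (core_le hinv ha hm) (le_core hinv ha hm) ih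

include hinv in
theorem eq_one_of_pow {t : H} {p : ℕ} (hp : 1 ≤ p) (h : t ^ p = 1) : t = 1 := by
  have ht : ∀ v, (Pool.Agent.W705.Borr.act hinv t)^[p] v = v := fun v => by
    rw [← act_pow, h, act_one]
  refine eq_one_of_act hinv t fun v => ?_
  rcases lt_trichotomy (Pool.Agent.W705.Borr.act hinv t v) v with h4 | h4 | h4
  · have h5 : (Pool.Agent.W705.Borr.act hinv t)^[p] v < v :=
      iter_lt (X := (LowerSet H)ᵒᵈ) (g := (Pool.Agent.W705.Borr.act hinv t).dual) (v := v) h4 p hp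
    rw [ht] at h5; exact absurd h5 (lt_irrefl _)
  · exact h4
  · have h5 := iter_lt h4 p hp
    rw [ht] at h5; exact absurd h5 (lt_irrefl _)

include hinv in
theorem eq_one_of_rel {x y t ξ η : H} (h : GReach x y ξ η)
    (hx : t * x * t⁻¹ = (y * x) * ξ * (y * x)⁻¹) (hy : t * y * t⁻¹ = (y * x) * η * (y * x)⁻¹)
    {p q : ℕ} (hp : 1 ≤ p) (hqp : q ≤ p) (hr : t ^ p * (x * y * x⁻¹ * y⁻¹) ^ q = 1) :
    x = 1 ∧ y = 1 ∧ t = 1 := by
  have hδ : t * (x * y * x⁻¹ * y⁻¹) = (x * y * x⁻¹ * y⁻¹) * t := by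
    have h1 : t * (x * y * x⁻¹ * y⁻¹) * t⁻¹ = x * y * x⁻¹ * y⁻¹ := by
      calc t * (x * y * x⁻¹ * y⁻¹) * t⁻¹
          = (t * x * t⁻¹) * (t * y * t⁻¹) * (t * x * t⁻¹)⁻¹ * (t * y * t⁻¹)⁻¹ := by group
        _ = (y * x) * (ξ * η * ξ⁻¹ * η⁻¹) * (y * x)⁻¹ := by rw [hx, hy]; group
        _ = (y * x) * (x⁻¹ * y⁻¹ * x * y) * (y * x)⁻¹ := by rw [h.comm]
        _ = x * y * x⁻¹ * y⁻¹ := by group
    calc t * (x * y * x⁻¹ * y⁻¹) = (t * (x * y * x⁻¹ * y⁻¹) * t⁻¹) * t := by group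
      _ = _ := by rw [h1]
  have hb := betw (t := act hinv t) (δ := act hinv (x * y * x⁻¹ * y⁻¹))
    (fun v => by rw [← act_mul, hδ, act_mul]) hp hqp
    (fun v => by rw [← act_pow, ← act_pow, ← act_mul, hr, act_one])
  have hs : Sys (act hinv x) (act hinv y) (act hinv ((y * x)⁻¹ * t)) := by
    refine Sys.of_reach (h.act hinv) ?_ ?_ ?_
    · intro v
      rw [← act_mul, ← act_mul]
      congr 2
      calc (y * x)⁻¹ * t * x = (y * x)⁻¹ * (t * x * t⁻¹) * t := by group
        _ = ξ * ((y * x)⁻¹ * t) := by rw [hx]; group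
    · intro v
      rw [← act_mul, ← act_mul]
      congr 2
      calc (y * x)⁻¹ * t * y = (y * x)⁻¹ * (t * y * t⁻¹) * t := by group
        _ = η * ((y * x)⁻¹ * t) := by rw [hy]; group
    · intro v
      rw [← act_inv, ← act_inv, ← act_mul, ← act_mul]
      have e1 : act hinv (x⁻¹ * y⁻¹) v = act hinv (y * x)⁻¹ v := by
        rw [mul_inv_rev]
      have e2 : act hinv (y⁻¹ * x⁻¹) v
          = act hinv (y * x)⁻¹ ((act hinv (x * y * x⁻¹ * y⁻¹)).symm v) := by
        rw [← act_inv, ← act_mul]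
        congr 2; group
      have e3 : act hinv ((y * x)⁻¹ * t) v = act hinv (y * x)⁻¹ (act hinv t v) := act_mul _ _ _ _
      rw [e1, e2, e3]
      rcases hb v with h1 | h1
      · exact Or.inr ⟨((act hinv (y * x)⁻¹).le_iff_le).mpr h1.1,
          ((act hinv (y * x)⁻¹).le_iff_le).mpr h1.2⟩
      · exact Or.inl ⟨((act hinv (y * x)⁻¹).le_iff_le).mpr h1.1,
          ((act hinv (y * x)⁻¹).le_iff_le).mpr h1.2⟩
  have x1 : x = 1 := eq_one_of_act hinv x fun v => (hs.trivial v).1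
  have y1 : y = 1 := eq_one_of_act hinv y fun v => (hs.trivial v).2
  refine ⟨x1, y1, ?_⟩
  rw [x1, y1] at hr
  have hr' : t ^ p = 1 := by simpa using hr
  exact eq_one_of_pow hinv hp hr'

end grp

end Pool.Agent.W705.PT
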